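import Pool.Agent.V5helper73.SZ.Stm
import Pool.Agent.Helper240.ZFM.ConvA
import Pool.Agent.Helper240.ZFM.Riem

set_option autoImplicit false
open Complex Metric Set Filter Topology

namespace V5helper19.SZ

open V5helper73.SZ
open Pool.Agent.Helper405.Riemann (bl bl_den_ne bl_norm_lt bl_hasDerivAt bl_inj bl_zero)

theorem bm_eq_bl (a z : ℂ) : bm a z = bl a z := rfl

theorem s_pos {a : ℂ} (ha : ‖a‖ < 1) : 0 < 1 - ‖a‖ ^ 2 := by nlinarith [norm_nonneg a]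

theorem s_cast (a : ℂ) : (1 : ℂ) - (starRingEnd ℂ) a * a = ((1 - ‖a‖ ^ 2 : ℝ) : ℂ) := by
  rw [Complex.conj_mul']; push_cast; rfl

theorem norm_id (a z : ℂ) :
    ‖1 - (starRingEnd ℂ) a * z‖ ^ 2 - ‖z - a‖ ^ 2 = (1 - ‖a‖ ^ 2) * (1 - ‖z‖ ^ 2) := by
  simp only [Complex.sq_norm, Complex.normSq_apply]
  simp
  ring

theorem one_sub_bm {a z : ℂ} (ha : ‖a‖ < 1) (hz : ‖z‖ < 1) :
    1 - ‖bm a z‖ ^ 2 = (1 - ‖a‖ ^ 2) * (1 - ‖z‖ ^ 2) / ‖1 - (starRingEnd ℂ) a * z‖ ^ 2 := by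
  have hne := bl_den_ne ha hz
  have hp : 0 < ‖1 - (starRingEnd ℂ) a * z‖ ^ 2 := by positivity
  rw [← norm_id, bm, norm_div, div_pow, eq_div_iff hp.ne', sub_mul, div_mul_cancel₀ _ hp.ne']
  ring

theorem bl_neg_bl {a z : ℂ} (ha : ‖a‖ < 1) (hz : ‖z‖ < 1) : bl (-a) (bl a z) = z := by
  have h1 := bl_den_ne ha hz
  have h2 := bl_den_ne ha ha
  have h3 : (1 - (starRingEnd ℂ) (-a) * ((z - a) / (1 - (starRingEnd ℂ) a * z))) =
      (1 - (starRingEnd ℂ) a * a) / (1 - (starRingEnd ℂ) a * z) := by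
    rw [map_neg, eq_div_iff h1, sub_mul, neg_mul, neg_mul, mul_assoc, div_mul_cancel₀ _ h1]
    ring
  rw [bl, bl, h3]
  have h4 : (z - a) / (1 - (starRingEnd ℂ) a * z) - -a =
      z * (1 - (starRingEnd ℂ) a * a) / (1 - (starRingEnd ℂ) a * z) := by
    rw [eq_div_iff h1, sub_mul, div_mul_cancel₀ _ h1]
    ring
  rw [h4, div_div_div_cancel_right₀ h1, mul_div_assoc, div_self h2, mul_one]

theorem t_KT : S_KT := by
  intro f hd hi a haB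
  have ha : ‖a‖ < 1 := by simpa using haB
  have han : ‖-a‖ < 1 := by rwa [norm_neg]
  have hs0 := s_pos ha
  have hs : (1 : ℂ) - (starRingEnd ℂ) (-a) * (-a) = ((1 - ‖a‖ ^ 2 : ℝ) : ℂ) := by
    rw [map_neg, neg_mul_neg]; exact s_cast a
  have hD : deriv f a ≠ 0 := Pool.Agent.Helper405.Conv.deriv_ne_zero_of_injOn isOpen_ball hd hi haB
  have hsc : ((1 - ‖a‖ ^ 2 : ℝ) : ℂ) ≠ 0 := by exact_mod_cast hs0.ne'
  have hsc' : (1 - (‖a‖ : ℂ) ^ 2) = ((1 - ‖a‖ ^ 2 : ℝ) : ℂ) := by push_cast; rfl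
  have hmem : ∀ ζ ∈ ball (0 : ℂ) 1, bl (-a) ζ ∈ ball (0 : ℂ) 1 := by
    intro ζ hζ
    have h1 : ‖ζ‖ < 1 := by simpa using hζ
    simpa using bl_norm_lt han h1
  have hkt : kt f a = fun ζ => (f (bl (-a) ζ) - f a) / (deriv f a * ((1 - ‖a‖ ^ 2 : ℝ) : ℂ)) := by
    funext ζ
    rw [kt, bl, map_neg, hsc', sub_neg_eq_add, neg_mul, sub_neg_eq_add]
  have hF : ∀ ζ ∈ ball (0 : ℂ) 1, HasDerivAt f (deriv f ζ) ζ := fun ζ hζ =>
    (hd.differentiableAt (isOpen_ball.mem_nhds hζ)).hasDerivAt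
  have hG1 : ∀ ζ ∈ ball (0 : ℂ) 1, HasDerivAt (kt f a)
      (deriv f (bl (-a) ζ) * (((1 - ‖a‖ ^ 2 : ℝ) : ℂ) / (1 - (starRingEnd ℂ) (-a) * ζ) ^ 2) /
        (deriv f a * ((1 - ‖a‖ ^ 2 : ℝ) : ℂ))) ζ := by
    intro ζ hζ
    have h1 : ‖ζ‖ < 1 := by simpa using hζ
    have h2 := (hF _ (hmem ζ hζ)).comp ζ (bl_hasDerivAt han h1)
    rw [hs] at h2
    rw [hkt]
    exact (h2.sub_const (f a)).div_const _
  have h0 : (0 : ℂ) ∈ ball (0 : ℂ) 1 := mem_ball_self one_pos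
  have hb0 : bl (-a) 0 = a := by rw [bl_zero, neg_neg]
  refine ⟨⟨?_, ?_, ?_, ?_⟩, ?_, ?_⟩
  · exact fun ζ hζ => (hG1 ζ hζ).differentiableAt.differentiableWithinAt
  · intro ζ hζ ξ hξ h
    rw [hkt] at h
    have h1 : ‖ζ‖ < 1 := by simpa using hζ
    have h2 : ‖ξ‖ < 1 := by simpa using hξ
    simp only at h
    rw [div_left_inj' (mul_ne_zero hD hsc), sub_left_inj] at h
    exact bl_inj han h1 h2 (hi (hmem ζ hζ) (hmem ξ hξ) h)
  · rw [hkt]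
    simp only [hb0, sub_self, zero_div]
  · rw [(hG1 0 h0).deriv, hb0]
    have e1 : (1 - (starRingEnd ℂ) (-a) * 0) ^ 2 = 1 := by simp
    rw [e1, div_one, div_self (mul_ne_zero hD hsc)]
  · exact mul_pos (norm_pos_iff.2 hD) hs0
  · intro z hzB
    have hz : ‖z‖ < 1 := by simpa using hzB
    have hbm : bm a z ∈ ball (0 : ℂ) 1 := by
      rw [bm_eq_bl]; simpa using bl_norm_lt ha hz
    have hbb : bl (-a) (bm a z) = z := by rw [bm_eq_bl]; exact bl_neg_bl ha hz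
    refine ⟨hbm, ?_, ?_⟩
    · rw [hkt]
      simp only
      rw [hbb, hsc', div_mul_cancel₀ _ (mul_ne_zero hD hsc)]
    · have hne := bl_den_ne ha hz
      have h2 := bl_den_ne ha ha
      have hden : 1 - (starRingEnd ℂ) (-a) * bm a z =
          ((1 - ‖a‖ ^ 2 : ℝ) : ℂ) / (1 - (starRingEnd ℂ) a * z) := by
        rw [← s_cast a, map_neg, bm]
        field_simp
        ring
      rw [(hG1 _ hbm).deriv, hbb, hden, one_sub_bm ha hz]
      rw [norm_div, norm_mul, norm_mul, norm_div, norm_pow, norm_div, Complex.norm_real,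
        Real.norm_of_nonneg hs0.le, dd, dd]
      have hDn : 0 < ‖deriv f a‖ := norm_pos_iff.2 hD
      have hnn : 0 < ‖1 - (starRingEnd ℂ) a * z‖ := norm_pos_iff.2 hne
      field_simp

end V5helper19.SZ
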