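import Pool.Agent.V5helper19.SZ.KT
import Pool.Agent.R243.HD.GR
import Pool.Agent.H713R5.QJ.TKBP

set_option autoImplicit false
open Complex Metric Set Filter Topology

namespace V5helper19.SZ

open V5helper73.SZ
open Pool.Agent.Helper405.Riemann (bl bl_den_ne bl_norm_lt bl_hasDerivAt bl_inj bl_zero)

theorem bm_self (a : ℂ) : bm a a = 0 := by simp [bm]

theorem bm_ne {a z : ℂ} (ha : ‖a‖ < 1) (hz : ‖z‖ < 1) (h : z ≠ a) : bm a z ≠ 0 := by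
  rw [bm]
  exact div_ne_zero (sub_ne_zero.2 h) (bl_den_ne ha hz)

theorem bm_symm (a z : ℂ) : ‖bm z a‖ = ‖bm a z‖ := by
  rw [bm, bm, norm_div, norm_div, norm_sub_rev a z]
  congr 1
  rw [← RCLike.norm_conj (1 - (starRingEnd ℂ) z * a)]
  simp [mul_comm]

/-- Koebe 1/4 for `g ∈ S` at the point `ξ` -/
theorem kq {g : ℂ → ℂ} (hg : InS g) {ξ : ℂ} (hξ : ξ ∈ ball (0 : ℂ) 1) : ‖ξ‖ ≤ 4 * ‖g ξ‖ := by
  by_cases h0 : ξ = 0
  · rw [h0, norm_zero]; positivity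
  have hp : 0 < ‖ξ‖ := norm_pos_iff.2 h0
  have h1 : ‖ξ‖ < 1 := by simpa using hξ
  have hsub : ball (0 : ℂ) ‖ξ‖ ⊆ ball 0 1 := ball_subset_ball h1.le
  have key := Pool.Agent.H713R5.QJ.kb_omit (Z := g) hp (hg.diff.mono hsub) (hg.inj.mono hsub)
    (u := g ξ) (by
      intro w hw h
      have := hg.inj (hsub hw) hξ h
      rw [this] at hw
      simp at hw)
  rw [hg.one, hg.zero, norm_one, mul_one, zero_sub, norm_neg] at key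
  exact key

theorem gr {g : ℂ → ℂ} (hg : InS g) {ξ : ℂ} (hξ : ξ ∈ ball (0 : ℂ) 1) :
    ‖g ξ‖ * (1 - ‖ξ‖) ^ 2 ≤ ‖ξ‖ := by
  have := HD243.GR308.growth hg.diff hg.inj hg.zero hξ
  rw [hg.one, norm_one, one_mul] at this
  linarith

theorem di {g : ℂ → ℂ} (hg : InS g) {ξ : ℂ} (hξ : ξ ∈ ball (0 : ℂ) 1) :
    ‖deriv g ξ‖ * (1 - ‖ξ‖) ^ 3 ≤ 1 + ‖ξ‖ := by
  have h1 : ‖ξ‖ < 1 := by simpa using hξ
  obtain ⟨e, he1, he2⟩ : ∃ e : ℂ, ‖e‖ = 1 ∧ ξ = (‖ξ‖ : ℂ) * e := by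
    by_cases h0 : ξ = 0
    · exact ⟨1, by simp, by simp [h0]⟩
    · have hp : 0 < ‖ξ‖ := norm_pos_iff.2 h0
      have hwc : (‖ξ‖ : ℂ) ≠ 0 := by exact_mod_cast hp.ne'
      refine ⟨ξ / (‖ξ‖ : ℂ), ?_, ?_⟩
      · rw [norm_div, Complex.norm_real, norm_norm, div_self hp.ne']
      · field_simp
  have := HD243.GR308.distortion hg.diff hg.inj he1 (norm_nonneg ξ) h1
  rw [← he2, hg.one, norm_one, one_mul] at this
  exact this

theorem t_TWO (hKT : S_KT) : S_TWO := by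
  have main : ∀ f : ℂ → ℂ, DifferentiableOn ℂ f (ball 0 1) → InjOn f (ball 0 1) →
      ∀ a ∈ ball (0:ℂ) 1, ∀ z ∈ ball (0:ℂ) 1,
      dd f a * ‖bm a z‖ ≤ 4 * ‖f z - f a‖ ∧
      ‖f z - f a‖ * (1 - ‖bm a z‖) ^ 2 ≤ dd f a * ‖bm a z‖ ∧
      dd f z * (1 - ‖bm a z‖) ^ 3 ≤ 2 * dd f a * (1 - ‖bm a z‖ ^ 2) * 1 ∧
      0 < dd f a := by
    intro f hd hi a ha z hz
    obtain ⟨hS, hp, hall⟩ := hKT f hd hi a ha
    obtain ⟨h1, h2, h3⟩ := hall z hz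
    have hp' : ‖deriv f a * (1 - (‖a‖ : ℂ) ^ 2)‖ = dd f a := by
      have ha1 : ‖a‖ < 1 := by simpa using ha
      have hs0 := s_pos ha1
      have hsc' : (1 - (‖a‖ : ℂ) ^ 2) = ((1 - ‖a‖ ^ 2 : ℝ) : ℂ) := by push_cast; rfl
      rw [hsc', norm_mul, Complex.norm_real, Real.norm_of_nonneg hs0.le, dd]
    have h2' : ‖kt f a (bm a z)‖ * dd f a = ‖f z - f a‖ := by
      rw [← h2, norm_mul, hp']
    have k1 := kq hS h1
    have k2 := gr hS h1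
    have k3 := di hS h1
    have hb1 : ‖bm a z‖ < 1 := by simpa using h1
    have hb0 := norm_nonneg (bm a z)
    refine ⟨?_, ?_, ?_, hp⟩
    · rw [← h2']; nlinarith
    · rw [← h2']
      have := mul_le_mul_of_nonneg_right k2 hp.le
      nlinarith
    · rw [← h3]
      have e1 : 0 ≤ (1 - ‖bm a z‖ ^ 2) * dd f a := mul_nonneg (by nlinarith) hp.le
      have e2 := mul_le_mul_of_nonneg_right k3 e1
      have e3 : (1 + ‖bm a z‖) * ((1 - ‖bm a z‖ ^ 2) * dd f a) ≤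
          2 * ((1 - ‖bm a z‖ ^ 2) * dd f a) := mul_le_mul_of_nonneg_right (by linarith) e1
      calc ‖deriv (kt f a) (bm a z)‖ * (1 - ‖bm a z‖ ^ 2) * dd f a * (1 - ‖bm a z‖) ^ 3
          = ‖deriv (kt f a) (bm a z)‖ * (1 - ‖bm a z‖) ^ 3 * ((1 - ‖bm a z‖ ^ 2) * dd f a) := by ring
        _ ≤ (1 + ‖bm a z‖) * ((1 - ‖bm a z‖ ^ 2) * dd f a) := e2
        _ ≤ 2 * ((1 - ‖bm a z‖ ^ 2) * dd f a) := e3
        _ = _ := by ring
  intro f hd hi a ha z hz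
  obtain ⟨m1, m2, m3, m4⟩ := main f hd hi a ha z hz
  obtain ⟨n1, n2, n3, n4⟩ := main f hd hi z hz a ha
  have hb1 : ‖bm a z‖ < 1 := by
    have ha1 : ‖a‖ < 1 := by simpa using ha
    have hz1 : ‖z‖ < 1 := by simpa using hz
    rw [bm_eq_bl]; exact bl_norm_lt ha1 hz1
  have hb0 := norm_nonneg (bm a z)
  rw [bm_symm a z] at n1 n2 n3
  refine ⟨m1, m2, ?_, ?_⟩
  · have : 2 * dd f a * (1 - ‖bm a z‖ ^ 2) * 1 ≤ 2 * dd f a := by nlinarith [sq_nonneg ‖bm a z‖]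
    linarith
  · by_cases h : 1 / 2 ≤ ‖bm a z‖
    · have : dd f a * (1 / 2) ≤ dd f a * ‖bm a z‖ := mul_le_mul_of_nonneg_left h m4.le
      nlinarith [norm_nonneg (f z - f a)]
    · push Not at h
      have e1 : (1 / 2 : ℝ) ^ 3 ≤ (1 - ‖bm a z‖) ^ 3 := by gcongr; linarith
      have e2 : dd f a * (1 / 2 : ℝ) ^ 3 ≤ dd f a * (1 - ‖bm a z‖) ^ 3 := mul_le_mul_of_nonneg_left e1 m4.le
      have e3 : 2 * dd f z * (1 - ‖bm a z‖ ^ 2) * 1 ≤ 2 * dd f z := by nlinarith [sq_nonneg ‖bm a z‖]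
      nlinarith [norm_nonneg (f z - f a)]

end V5helper19.SZ
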